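import Pool.Agent.Y576.TD.Fun

set_option autoImplicit false

/-!
Turing determinacy implies that every order preserving map from the nondecreasing functions with
eventual dominance to a partially ordered set has a Cantor set of incomparable values, or a value
`c` such that all functions whose value is not above `c` are eventually bounded by one function and
the functions of value `c` are 2-dominating. In particular the union of a chain of families of
nondecreasing functions which are not 2-dominating is bounded. Stated as an explicit reduction to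
the determinacy of Turing invariant sets.
-/

namespace Pool.Agent.Results.MP_917879_lc.ChainsOfBoundedFamilies

open Pool.Agent.H685R3 Pool.Agent.Y576.TD Filter

/-- `x` and `y` have the same Turing degree (Mathlib's Turing reducibility, for characteristic
functions). -/
def SameDegree (x y : ℕ → Bool) : Prop :=
  TuringReducible (charFn x) (charFn y) ∧ TuringReducible (charFn y) (charFn x)

/-- The set of all `x` such that for some `x'` of the same Turing degree the set `V` contains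
infinitely many members of the sequence `Ψ x'`. -/
def Saturation (V : Set (ℕ → Bool)) (Ψ : (ℕ → Bool) → ℕ → ℕ → Bool) : Set (ℕ → Bool) :=
  {x | ∃ x', SameDegree x' x ∧ ∃ᶠ n in atTop, Ψ x' n ∈ V}

/-- One function eventually dominates all nondecreasing functions in `F`. -/
def Bounded (F : Set (ℕ → ℕ)) : Prop :=
  ∃ g : ℕ → ℕ, ∀ x ∈ F, Monotone x → ∀ᶠ n in atTop, x n ≤ g n

/-- Every function is eventually dominated by the maximum of two nondecreasing members of `F`. -/
def TwoDominating (F : Set (ℕ → ℕ)) : Prop :=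
  ∀ g : ℕ → ℕ, ∃ x ∈ F, ∃ y ∈ F, Monotone x ∧ Monotone y ∧ ∀ᶠ n in atTop, g n ≤ max (x n) (y n)

/-- The members `F` of `𝒞` such that `x` is not eventually dominated by a nondecreasing member of
`F`. -/
def Missing (𝒞 : Set (Set (ℕ → ℕ))) (x : ℕ → ℕ) : Set (Set (ℕ → ℕ)) :=
  {F ∈ 𝒞 | ¬ ∃ f ∈ F, Monotone f ∧ ∀ᶠ n in atTop, x n ≤ f n}

theorem sat_eq (V : Set (ℕ → Bool)) (σ : List Bool) :
    Saturation V (Pool.Agent.W885.TD.cc σ) =
      Pool.Agent.W885.TD.sat V (Pool.Agent.W885.TD.cc σ) := by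
  ext x
  exact ⟨fun ⟨x', h, h'⟩ => ⟨x', h.1, h.2, h'⟩, fun ⟨x', h1, h2, h'⟩ => ⟨x', ⟨h1, h2⟩, h'⟩⟩

theorem part (P : Type*) [PartialOrder P] (φ : (ℕ → ℕ) → P)
    (hφ : ∀ x y, Monotone x → Monotone y → (∀ᶠ n in atTop, x n ≤ y n) → φ x ≤ φ y)
    (hD : ∀ σ, Determined (Saturation (Code (Rel φ)) (Pool.Agent.W885.TD.cc σ))) :
    (∃ c, Bounded {x | ¬ c ≤ φ x} ∧ TwoDominating {x | φ x = c}) ∨
      ∃ h : (ℕ → Bool) → ℕ → ℕ, Continuous h ∧ (∀ s, Monotone (h s)) ∧
        ∀ s t, s ≠ t → ¬ φ (h s) ≤ φ (h t) ∧ ¬ φ (h t) ≤ φ (h s) := by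
  rcases Pool.Agent.Y576.TD.main hφ (fun σ => by
      have h := hD σ
      rw [sat_eq] at h
      exact h) with ⟨c, ⟨g, hg⟩, h2⟩ | ⟨h, h1, h2, h3⟩
  · refine Or.inl ⟨c, ⟨g, fun x hx hm => hg x hm hx⟩, fun g => ?_⟩
    obtain ⟨x, y, h3, h4, h5, h6, h7⟩ := h2 g
    exact ⟨x, h5, y, h6, h3, h4, Eventually.of_forall h7⟩
  · exact Or.inr ⟨h, h1, h2, fun s t hs => ⟨h3 s t hs, h3 t s hs.symm⟩⟩

/-- There are Borel maps `Φ σ` (one for every finite binary sequence `σ`) from the Cantor space to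
sequences of points of the Cantor space such that the following holds.

(1) Let `P` be a partially ordered set and let `φ` be a map from the functions of natural numbers to
`P` with `φ x ≤ φ y` for all nondecreasing `x`, `y` with `x n ≤ y n` for almost all `n`. Then the
Turing saturations of the sets `{x | Φ σ x n ∈ Code (Rel φ) for infinitely many n}` are Turing
invariant, and if all of them are determined, then either some `c ∈ P` is such that the set of `x`
with `¬ c ≤ φ x` is bounded and the set of `x` with `φ x = c` is 2-dominating, or there is a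
continuous map `h` from the Cantor space to the nondecreasing functions such that `φ (h s)` and
`φ (h t)` are incomparable for all `s ≠ t`.

(2) Let `𝒞` be a set of sets of functions, linearly ordered by inclusion. If no member of `𝒞` is
2-dominating and the Turing invariant sets of (1) for `φ = Missing 𝒞` are determined, then the union
of `𝒞` is bounded. -/
theorem result :
    ∃ Φ : List Bool → (ℕ → Bool) → ℕ → ℕ → Bool, (∀ σ, Measurable (Φ σ)) ∧
      (∀ (P : Type*) [PartialOrder P] (φ : (ℕ → ℕ) → P),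
        (∀ x y, Monotone x → Monotone y → (∀ᶠ n in atTop, x n ≤ y n) → φ x ≤ φ y) →
        (∀ σ, TuringInvariant (Saturation (Code (Rel φ)) (Φ σ))) ∧
        ((∀ σ, Determined (Saturation (Code (Rel φ)) (Φ σ))) →
          (∃ c, Bounded {x | ¬ c ≤ φ x} ∧ TwoDominating {x | φ x = c}) ∨
          ∃ h : (ℕ → Bool) → ℕ → ℕ, Continuous h ∧ (∀ s, Monotone (h s)) ∧
            ∀ s t, s ≠ t → ¬ φ (h s) ≤ φ (h t) ∧ ¬ φ (h t) ≤ φ (h s))) ∧
      ∀ 𝒞 : Set (Set (ℕ → ℕ)), IsChain (· ⊆ ·) 𝒞 → (∀ F ∈ 𝒞, ¬ TwoDominating F) →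
        (∀ σ, TuringInvariant (Saturation (Code (Rel (Missing 𝒞))) (Φ σ))) ∧
        ((∀ σ, Determined (Saturation (Code (Rel (Missing 𝒞))) (Φ σ))) → Bounded (⋃₀ 𝒞)) := by
  have hinv : ∀ (V : Set (ℕ → Bool)) (σ : List Bool),
      TuringInvariant (Saturation V (Pool.Agent.W885.TD.cc σ)) := by
    intro V σ
    rw [sat_eq]
    exact Pool.Agent.W885.TD.sat_invariant _ _
  refine ⟨Pool.Agent.W885.TD.cc, Pool.Agent.W885.TD.measurable_cc,
    fun P _ φ hφ => ⟨fun σ => hinv _ σ, part P φ hφ⟩, fun 𝒞 h𝒞 h2 => ⟨fun σ => hinv _ σ, fun hD => ?_⟩⟩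
  have hmono : ∀ x y : ℕ → ℕ, Monotone x → Monotone y → (∀ᶠ n in atTop, x n ≤ y n) →
      Missing 𝒞 x ≤ Missing 𝒞 y := by
    rintro x y - - hxy F ⟨hF, hF'⟩
    refine ⟨hF, fun ⟨f, h3, h4, h5⟩ => hF' ⟨f, h3, h4, ?_⟩⟩
    filter_upwards [hxy, h5] with n h6 h7
    exact h6.trans h7
  have hcomp : ∀ x y : ℕ → ℕ, Missing 𝒞 x ≤ Missing 𝒞 y ∨ Missing 𝒞 y ≤ Missing 𝒞 x := by
    intro x y
    by_contra hc
    push Not at hc
    obtain ⟨h3, h4⟩ := hc
    obtain ⟨F, hF1, hF2⟩ := Set.not_subset.1 h3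
    obtain ⟨F', hF1', hF2'⟩ := Set.not_subset.1 h4
    have h5 : ∃ f ∈ F, Monotone f ∧ ∀ᶠ n in atTop, y n ≤ f n := by
      by_contra h6
      exact hF2 ⟨hF1.1, h6⟩
    have h6 : ∃ f ∈ F', Monotone f ∧ ∀ᶠ n in atTop, x n ≤ f n := by
      by_contra h6
      exact hF2' ⟨hF1'.1, h6⟩
    rcases h𝒞.total hF1.1 hF1'.1 with h | h
    · obtain ⟨f, h7, h8⟩ := h5
      exact hF1'.2 ⟨f, h h7, h8⟩
    · obtain ⟨f, h7, h8⟩ := h6
      exact hF1.2 ⟨f, h h7, h8⟩
  rcases part _ (Missing 𝒞) hmono hD with ⟨c, ⟨g, hg⟩, hc⟩ | ⟨h, -, -, h3⟩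
  · refine ⟨g, fun x hx hm => hg x ?_ hm⟩
    obtain ⟨F, hF, hxF⟩ := hx
    intro hcx
    -- `F` is missed by no function of value `c`, so it is 2-dominating
    have hFc : F ∉ c := fun hFc => (hcx hFc).2 ⟨x, hxF, hm, Eventually.of_forall fun n => le_rfl⟩
    refine h2 F hF fun g' => ?_
    obtain ⟨y, hy, z, hz, -, -, hyz⟩ := hc g'
    have h4 : ∀ v : ℕ → ℕ, Missing 𝒞 v = c → ∃ f ∈ F, Monotone f ∧ ∀ᶠ n in atTop, v n ≤ f n := by
      intro v hv
      by_contra h5
      exact hFc (hv ▸ ⟨hF, h5⟩)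
    obtain ⟨f, h5, h6, h7⟩ := h4 y hy
    obtain ⟨f', h5', h6', h7'⟩ := h4 z hz
    refine ⟨f, h5, f', h5', h6, h6', ?_⟩
    filter_upwards [hyz, h7, h7'] with n h8 h9 h10
    exact h8.trans (max_le_max h9 h10)
  · exfalso
    have hne : (fun _ => true : ℕ → Bool) ≠ fun _ => false := fun h => by
      have := congrFun h 0
      simp at this
    obtain ⟨h4, h5⟩ := h3 _ _ hne
    rcases hcomp (h fun _ => true) (h fun _ => false) with h6 | h6
    · exact h4 h6
    · exact h5 h6

end Pool.Agent.Results.MP_917879_lc.ChainsOfBoundedFamilies
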