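import Pool.Agent.Y576.TD.Gen

set_option autoImplicit false

/-!
Turing determinacy implies a dichotomy for all order preserving maps from the sets of natural
numbers modulo finite sets to partially ordered sets: such a map is constant on a comeager set, or
there is a Cantor set of sets of natural numbers whose images are pairwise incomparable. Stated as
an explicit reduction to the determinacy of Turing invariant sets.
-/

namespace Pool.Agent.Results.MP_917879_lc.PerfectAntichains

open Pool.Agent.H685R3 Filter

/-- `x` and `y` have the same Turing degree (Mathlib's Turing reducibility, for characteristic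
functions). -/
def SameDegree (x y : ℕ → Bool) : Prop :=
  TuringReducible (charFn x) (charFn y) ∧ TuringReducible (charFn y) (charFn x)

/-- The set of all `x` such that for some `x'` of the same Turing degree the set `V` contains
infinitely many members of the sequence `Ψ x'`. -/
def Saturation (V : Set (ℕ → Bool)) (Ψ : (ℕ → Bool) → ℕ → ℕ → Bool) : Set (ℕ → Bool) :=
  {x | ∃ x', SameDegree x' x ∧ ∃ᶠ n in atTop, Ψ x' n ∈ V}

/-- The set of all codes `z` of pairs `(a, b)` of sets of natural numbers with `f a ≤ f b`; here `a`
is the complement of `{n | z (2 n) = 1}` and `b` is `{n | z (2 n + 1) = 1}`. -/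
def Below {P : Type*} [PartialOrder P] (f : (ℕ → Bool) → P) : Set (ℕ → Bool) :=
  {z | f (fun n => !(z (2 * n))) ≤ f (fun n => z (2 * n + 1))}

/-- There are Borel maps `Φ σ` (one for every finite binary sequence `σ`) from the Cantor space to
sequences of points of the Cantor space such that for every map `f` from the subsets of the natural
numbers to a partially ordered set `P` with `f a ≤ f b` whenever `a \ b` is finite, the Turing
saturations of the sets `{x | Φ σ x n ∈ Below f for infinitely many n}` are Turing invariant, and if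
all of them are determined, then `f` is constant on a comeager set, or there is a continuous map `h`
of the Cantor space into itself such that `f (h s)` and `f (h t)` are incomparable for all
`s ≠ t`. -/
theorem result :
    ∃ Φ : List Bool → (ℕ → Bool) → ℕ → ℕ → Bool, (∀ σ, Measurable (Φ σ)) ∧
      ∀ (P : Type*) [PartialOrder P] (f : (ℕ → Bool) → P),
        (∀ a b : ℕ → Bool, (∀ᶠ n in atTop, a n = true → b n = true) → f a ≤ f b) →
        (∀ σ, TuringInvariant (Saturation (Below f) (Φ σ))) ∧
        ((∀ σ, Determined (Saturation (Below f) (Φ σ))) →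
          (∃ c, ∀ᶠ a in residual (ℕ → Bool), f a = c) ∨
          ∃ h : (ℕ → Bool) → ℕ → Bool, Continuous h ∧
            ∀ s t, s ≠ t → ¬ f (h s) ≤ f (h t) ∧ ¬ f (h t) ≤ f (h s)) := by
  refine ⟨Pool.Agent.W885.TD.cc, Pool.Agent.W885.TD.measurable_cc, fun P _ f hf => ?_⟩
  have key : ∀ (V : Set (ℕ → Bool)) (σ : List Bool), Saturation V (Pool.Agent.W885.TD.cc σ) =
      Pool.Agent.W885.TD.sat V (Pool.Agent.W885.TD.cc σ) := by
    intro V σ
    ext x
    exact ⟨fun ⟨x', h, h'⟩ => ⟨x', h.1, h.2, h'⟩, fun ⟨x', h1, h2, h'⟩ => ⟨x', ⟨h1, h2⟩, h'⟩⟩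
  refine ⟨fun σ => ?_, fun hD => ?_⟩
  · rw [key]
    exact Pool.Agent.W885.TD.sat_invariant _ _
  · have hR : ∀ a a' b b', Pool.Agent.Y576.TD.Le a' a → Pool.Agent.Y576.TD.Le b b' →
        f a ≤ f b → f a' ≤ f b' := fun a a' b b' h1 h2 h3 => (hf _ _ h1).trans (h3.trans (hf _ _ h2))
    rcases Pool.Agent.Y576.TD.dichotomy (R := fun a b => f a ≤ f b) hR
      (fun σ => by
        have h := hD σ
        rw [key] at h
        exact h) (E := Set.univ) univ_mem with ⟨a, ha⟩ | ⟨h, hh, hst⟩
    · exact Or.inl ⟨f a, ha.mono fun b hb => le_antisymm hb.2 hb.1⟩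
    · exact Or.inr ⟨h, hh, fun s t hs => ⟨(hst s t hs).1, (hst t s hs.symm).1⟩⟩

end Pool.Agent.Results.MP_917879_lc.PerfectAntichains
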