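import Pool.Agent.Y588.PC.Turing

set_option autoImplicit false

namespace Pool.Agent.Results.MP_917879_lc.RestrictedPlayer

open Pool.Agent.Helper227 Pool.Agent.H685R3 Pool.Agent.Y588.PD Pool.Agent.Y588.PC

/-- Turing equivalence is a generically countable equivalence relation, and for it `Replaceable`
is the set of all sequences which have the Turing degree of some `κ u`. For every generically
countable equivalence relation `R` there are continuous maps `κ₀`, `κ₁`, the first one injective,
such that the following holds for every set `C` between the compact set `Set.range κ₀` and
`Replaceable R κ₀`. For every payoff set `A` whatsoever the coded form of `A` is closed under `R`,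
and each of the two players has a winning strategy in the game whose payoff set consists of the
plays in this coded form in which the sequence of the moves of player I lies in `C`, if and only
if the same player has one in the game with payoff set `A`. Thus the axiom of determinacy is
equivalent to the determinacy of all games with an `R`-invariant payoff set in which player I
must also play an element of the fixed set `C`. -/
theorem result :
    (GenericallyCountable SameDegree ∧ ∀ κ : (ℕ → Bool) → ℕ → Bool,
      Replaceable SameDegree κ = {y | ∃ u, SameDegree y (κ u)}) ∧
    ∀ R : (ℕ → Bool) → (ℕ → Bool) → Prop, GenericallyCountable R →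
      ∃ κ₀ κ₁ : (ℕ → Bool) → ℕ → Bool, Continuous κ₀ ∧ Continuous κ₁ ∧ Function.Injective κ₀ ∧
        ∀ C : Set (ℕ → Bool), Set.range κ₀ ⊆ C → C ⊆ Replaceable R κ₀ → ∀ A : Set (ℕ → Bool),
          InvariantFor R (CodedFor R κ₀ κ₁ A) ∧
          (WinsI (Restrict C (CodedFor R κ₀ κ₁ A)) ↔ WinsI A) ∧
          (WinsII (Restrict C (CodedFor R κ₀ κ₁ A)) ↔ WinsII A) :=
  ⟨⟨genericallyCountable_sameDegree, replaceable_sameDegree⟩, fun _ hR => main hR⟩

end Pool.Agent.Results.MP_917879_lc.RestrictedPlayer
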