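import Pool.Agent.Y588.TC.Main

set_option autoImplicit false

namespace Pool.Agent.Results.MP_917879_lc.ThompsonCircle

open Pool.Agent.Helper227 Pool.Agent.H685R3 Pool.Agent.Y588.TC

/-- Let `A` be a payoff set. If `A` is closed under the two permutations of the positions
`4 m ↦ 4 m + 2 ↦ 4 m + 1 ↦ 4 m + 3 ↦ 4 m` and `4 m ↦ 4 m + 2 ↦ 2 m + 1 ↦ 4 m`, which generate
Thompson's circle group, then the set of all `u` with `adaptiveJump (hyperJump u)` in `A` is closed
under hyperarithmetical equivalence, and each of the two players has a winning strategy in the game
with this payoff set if and only if the same player has one in the game with payoff set `A`.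
Moreover, sets closed under hyperarithmetical equivalence are Turing invariant, and Turing
invariant sets are closed under the two permutations. Thus the determinacy of all sets in any one
of these three classes implies the determinacy of all sets in the other two. -/
theorem result (A : Set (ℕ → Bool)) :
    (CircleInvariant A →
      HypInvariant {u | adaptiveJump (hyperJump u) ∈ A} ∧
      (WinsI {u | adaptiveJump (hyperJump u) ∈ A} ↔ WinsI A) ∧
      (WinsII {u | adaptiveJump (hyperJump u) ∈ A} ↔ WinsII A)) ∧
    (HypInvariant A → TuringInvariant A) ∧
    (TuringInvariant A → CircleInvariant A) :=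
  ⟨fun h => (main h).2, fun h => h.turingInvariant, circleInvariant_of_turing⟩

end Pool.Agent.Results.MP_917879_lc.ThompsonCircle
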